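import Pool.Agent.Helper32.AG.Goals

/-!
# AG-N1
-/

set_option autoImplicit false

namespace Pool.Agent.Helper98.AG

open Pool.Agent.Helper32.AG

lemma n1_r (r : ℕ) (hr : 1 ≤ r) : 9 * r ^ 2 ≤ 4 * 3 ^ r := by
  rcases Nat.lt_or_ge r 2 with h | h
  · have : r = 1 := by omega
    subst this
    norm_num
  · induction r, h using Nat.le_induction with
    | base => norm_num
    | succ n hn ih =>
      have e : 3 ^ (n + 1) = 3 * 3 ^ n := by ring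
      have := ih (by omega)
      rw [e]
      nlinarith

lemma n1_step (w : ℕ) (hw : 3 ≤ w) (n : ℕ) :
    2 * (n + 4) ^ 2 * (n + 3) * (w + 1) ^ (n + 4) ≤ 3 ^ (n + 5) * w ^ (2 * n + 5) := by
  induction n with
  | zero =>
    have h1 : 3 * (w + 1) ≤ 4 * w := by omega
    have h2 : (3 * (w + 1)) ^ 4 ≤ (4 * w) ^ 4 := Nat.pow_le_pow_left h1 4
    have h3 : 3 * w ^ 4 ≤ w ^ 5 := by
      calc 3 * w ^ 4 ≤ w * w ^ 4 := Nat.mul_le_mul_right _ hw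
        _ = w ^ 5 := by ring
    have h4 : 81 * (w + 1) ^ 4 ≤ 256 * w ^ 4 := by
      have e1 : (3 * (w + 1)) ^ 4 = 81 * (w + 1) ^ 4 := by ring
      have e2 : (4 * w) ^ 4 = 256 * w ^ 4 := by ring
      rw [e1, e2] at h2
      exact h2
    norm_num
    omega
  | succ n ih =>
    have h1 : 3 * (w + 1) ≤ 4 * w := by omega
    have h2 : (n + 5) ^ 2 * (w + 1) ≤ 3 * w ^ 2 * ((n + 4) * (n + 3)) := by
      have h3 : (n + 5) ^ 2 * 4 ≤ 27 * ((n + 4) * (n + 3)) := by nlinarith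
      have h4 : 3 * w ≤ w ^ 2 := by nlinarith
      have h5 : (n + 5) ^ 2 * (3 * (w + 1)) ≤ (n + 5) ^ 2 * (4 * w) := Nat.mul_le_mul_left _ h1
      have h6 : (n + 5) ^ 2 * 4 * w ≤ 27 * ((n + 4) * (n + 3)) * w := Nat.mul_le_mul_right _ h3
      have h7 : 9 * ((n + 4) * (n + 3)) * (3 * w) ≤ 9 * ((n + 4) * (n + 3)) * w ^ 2 :=
        Nat.mul_le_mul_left _ h4
      have h8 : (n + 5) ^ 2 * (3 * (w + 1)) ≤ 9 * ((n + 4) * (n + 3)) * w ^ 2 := by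
        calc _ ≤ (n + 5) ^ 2 * (4 * w) := h5
          _ = (n + 5) ^ 2 * 4 * w := by ring
          _ ≤ 27 * ((n + 4) * (n + 3)) * w := h6
          _ = 9 * ((n + 4) * (n + 3)) * (3 * w) := by ring
          _ ≤ _ := h7
      have h9 : 3 * ((n + 5) ^ 2 * (w + 1)) ≤ 3 * (3 * w ^ 2 * ((n + 4) * (n + 3))) := by
        calc 3 * ((n + 5) ^ 2 * (w + 1)) = (n + 5) ^ 2 * (3 * (w + 1)) := by ring
          _ ≤ _ := h8
          _ = _ := by ring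
      exact Nat.le_of_mul_le_mul_left h9 (by norm_num)
    calc 2 * (n + 1 + 4) ^ 2 * (n + 1 + 3) * (w + 1) ^ (n + 1 + 4)
        = 2 * (n + 4) * (w + 1) ^ (n + 4) * ((n + 5) ^ 2 * (w + 1)) := by ring
      _ ≤ 2 * (n + 4) * (w + 1) ^ (n + 4) * (3 * w ^ 2 * ((n + 4) * (n + 3))) :=
          Nat.mul_le_mul_left _ h2
      _ = 3 * w ^ 2 * (2 * (n + 4) ^ 2 * (n + 3) * (w + 1) ^ (n + 4)) := by ring
      _ ≤ 3 * w ^ 2 * (3 ^ (n + 5) * w ^ (2 * n + 5)) := Nat.mul_le_mul_left _ ih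
      _ = 3 ^ (n + 1 + 5) * w ^ (2 * (n + 1) + 5) := by ring

lemma n1_num (m w : ℕ) (hw : 3 ≤ w) (h : ¬ (m = 0 ∧ w = 3)) :
    2 * (m + 3) ^ 2 * (m + 2) * (w + 1) ^ (m + 3) ≤ 3 ^ (m + 4) * w ^ (2 * m + 3) := by
  rcases Nat.eq_zero_or_pos m with hm | hm
  · subst hm
    have hw4 : 4 ≤ w := by omega
    obtain ⟨v, rfl⟩ : ∃ v, w = v + 4 := ⟨w - 4, by omega⟩
    ring_nf
    nlinarith [Nat.zero_le v, sq_nonneg v]
  · obtain ⟨n, rfl⟩ : ∃ n, m = n + 1 := ⟨m - 1, by omega⟩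
    exact n1_step w hw n

theorem n1 : N1Stmt := by
  intro s w κ c1 c2 r hs hw hκ hc1 hc2 hr h1 h2 h3
  by_cases hspec : s = 3 ∧ w = 3
  · obtain ⟨rfl, rfl⟩ := hspec
    have h4 : 4 ≤ c1 + c2 + r + (3 - 3) := by
      by_contra hcon
      have e1 : c1 = 1 := by omega
      have e2 : c2 = 1 := by omega
      have e3 : r = 1 := by omega
      subst e1; subst e2; subst e3
      norm_num at h1 h3
      omega
    calc (3 + 1) ^ 3 ≤ 3 ^ 4 := by norm_num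
      _ ≤ _ := Nat.pow_le_pow_right (by norm_num) h4
  · obtain ⟨m, rfl⟩ : ∃ m, s = m + 3 := ⟨s - 3, by omega⟩
    have hnum := n1_num m w hw (by rintro ⟨rfl, rfl⟩; exact hspec ⟨rfl, rfl⟩)
    have e0 : m + 3 - 3 = m := by omega
    rw [e0]
    set B := (m + 3).choose 2 with hB
    have hB2 : 2 * B = (m + 3) * (m + 2) := by
      have h4 : B = (m + 3) * (m + 3 - 1) / 2 := by rw [hB, Nat.choose_two_right]
      have h5 : 2 ∣ (m + 3) * (m + 3 - 1) := by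
        have := Nat.even_mul_pred_self (m + 3)
        exact this.two_dvd
      have h6 : m + 3 - 1 = m + 2 := by omega
      rw [h4, Nat.mul_div_cancel' h5, h6]
    have hwpos : 0 < w := by omega
    -- `9 κ² ≤ 3 ^ (c1 + c2) s B w³`
    have h4 : 9 * κ ^ 2 ≤ 3 ^ (c1 + c2) * ((m + 3) * B * w ^ 3) := by
      have := Nat.mul_le_mul h1 h2
      calc 9 * κ ^ 2 = (3 * κ) * (3 * κ) := by ring
        _ ≤ _ := this
        _ = _ := by rw [pow_add]; ring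
    have h5 : w ^ (2 * m + 6) ≤ (r * κ) ^ 2 := by
      calc w ^ (2 * m + 6) = (w ^ (m + 3)) ^ 2 := by rw [← pow_mul]; congr 1; ring
        _ ≤ _ := Nat.pow_le_pow_left h3 2
    have h6 : 9 * w ^ (2 * m + 3) * w ^ 3 ≤ 3 ^ (c1 + c2) * ((m + 3) * B) * r ^ 2 * w ^ 3 := by
      calc 9 * w ^ (2 * m + 3) * w ^ 3 = 9 * w ^ (2 * m + 6) := by ring
        _ ≤ 9 * (r * κ) ^ 2 := Nat.mul_le_mul_left _ h5
        _ = r ^ 2 * (9 * κ ^ 2) := by ring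
        _ ≤ r ^ 2 * (3 ^ (c1 + c2) * ((m + 3) * B * w ^ 3)) := Nat.mul_le_mul_left _ h4
        _ = _ := by ring
    have h7 : 9 * w ^ (2 * m + 3) ≤ 3 ^ (c1 + c2) * ((m + 3) * B) * r ^ 2 :=
      Nat.le_of_mul_le_mul_right h6 (by positivity)
    have h8 := n1_r r hr
    have h9 : 81 * w ^ (2 * m + 3) ≤ 2 * 3 ^ (c1 + c2 + r) * ((m + 3) ^ 2 * (m + 2)) := by
      calc 81 * w ^ (2 * m + 3) = 9 * (9 * w ^ (2 * m + 3)) := by ring
        _ ≤ 9 * (3 ^ (c1 + c2) * ((m + 3) * B) * r ^ 2) := Nat.mul_le_mul_left _ h7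
        _ = 3 ^ (c1 + c2) * ((m + 3) * B) * (9 * r ^ 2) := by ring
        _ ≤ 3 ^ (c1 + c2) * ((m + 3) * B) * (4 * 3 ^ r) := Nat.mul_le_mul_left _ h8
        _ = 2 * 3 ^ (c1 + c2 + r) * ((m + 3) * (2 * B)) := by rw [pow_add 3 (c1 + c2) r]; ring
        _ = _ := by rw [hB2]; ring
    have h10 : 2 * (m + 3) ^ 2 * (m + 2) * (w + 1) ^ (m + 3) ≤
        2 * (m + 3) ^ 2 * (m + 2) * 3 ^ (c1 + c2 + r + m) := by
      calc 2 * (m + 3) ^ 2 * (m + 2) * (w + 1) ^ (m + 3) ≤ 3 ^ (m + 4) * w ^ (2 * m + 3) := hnum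
        _ = 3 ^ m * (81 * w ^ (2 * m + 3)) := by rw [pow_add 3 m 4]; ring
        _ ≤ 3 ^ m * (2 * 3 ^ (c1 + c2 + r) * ((m + 3) ^ 2 * (m + 2))) := Nat.mul_le_mul_left _ h9
        _ = _ := by rw [pow_add 3 (c1 + c2 + r) m]; ring
    exact Nat.le_of_mul_le_mul_left h10 (by positivity)

end Pool.Agent.Helper98.AG
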