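import Pool.Agent.Helper32.AG.Goals

/-!
# AG-N4
-/

set_option autoImplicit false

namespace Pool.Agent.Helper98.AG

open Pool.Agent.Helper32.AG

lemma nine_pow (t : ℕ) (ht : 3 ≤ t) : 8 * t ^ 2 * (t + 1) ≤ 9 ^ t := by
  induction t, ht using Nat.le_induction with
  | base => norm_num
  | succ n hn ih =>
    rw [pow_succ]
    have h1 : 8 * (n + 1) ^ 2 * (n + 1 + 1) ≤ (8 * n ^ 2 * (n + 1)) * 9 := by
      nlinarith [mul_self_nonneg n, Nat.zero_le n, mul_le_mul hn hn (by norm_num) (Nat.zero_le n)]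
    exact h1.trans (Nat.mul_le_mul_right 9 ih)

lemma n4_core (Q a r : ℕ) (ha : 0 < a) (hQ : 3 ^ a ≤ Q) (h : Q ^ 2 ≤ r * (2 * a ^ 2)) :
    Q ^ 4 ≤ 3 ^ r := by
  have hQ0 : Q ≠ 0 := by
    have : 0 < 3 ^ a := by positivity
    omega
  set t := Nat.log 3 Q with ht
  have h1 : 3 ^ t ≤ Q := Nat.pow_log_le_self 3 hQ0
  have h2 : Q < 3 ^ (t + 1) := Nat.lt_pow_succ_log_self (by norm_num) Q
  have hat : a ≤ t := (Nat.le_log_iff_pow_le (by norm_num) hQ0).2 hQ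
  rcases lt_or_ge t 3 with h3 | h3
  · have ht12 : t = 1 ∨ t = 2 := by omega
    rcases ht12 with ht1 | ht1
    · rw [ht1] at h1 h2 hat
      have ha1 : a = 1 := by omega
      subst ha1
      have hQ3 : 3 ≤ Q := by omega
      have hQ8 : Q ≤ 8 := by omega
      have h5 : Q ^ 2 ≤ 2 * r := by linarith
      have key : ∀ n, n ≤ r → Q ^ 4 ≤ 3 ^ n → Q ^ 4 ≤ 3 ^ r := fun n hn h =>
        h.trans (Nat.pow_le_pow_right (by norm_num) hn)
      interval_cases Q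
      · exact key 5 (by omega) (by norm_num)
      · exact key 8 (by omega) (by norm_num)
      · exact key 12 (by omega) (by norm_num)
      · exact key 18 (by omega) (by norm_num)
      · exact key 24 (by omega) (by norm_num)
      · exact key 32 (by omega) (by norm_num)
    · rw [ht1] at h1 h2 hat
      have hQ9 : 9 ≤ Q := by omega
      have hQ27 : Q < 27 := by omega
      have ha2 : a ^ 2 ≤ 4 := by nlinarith
      have h5 : Q ^ 2 ≤ 8 * r := by nlinarith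
      rcases Nat.lt_or_ge 9 Q with h6 | h6
      · have h7 : 12 ≤ r := by nlinarith
        calc Q ^ 4 ≤ 27 ^ 4 := Nat.pow_le_pow_left hQ27.le 4
          _ = 3 ^ 12 := by norm_num
          _ ≤ 3 ^ r := Nat.pow_le_pow_right (by norm_num) h7
      · have h7 : Q = 9 := by omega
        subst h7
        calc 9 ^ 4 = 3 ^ 8 := by norm_num
          _ ≤ 3 ^ r := Nat.pow_le_pow_right (by norm_num) (by omega)
  · have h4 := nine_pow t h3
    have h5 : 9 ^ t ≤ Q ^ 2 := by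
      calc 9 ^ t = (3 ^ t) ^ 2 := by rw [← pow_mul, mul_comm, pow_mul]; norm_num
        _ ≤ Q ^ 2 := Nat.pow_le_pow_left h1 2
    have h6 : (4 * (t + 1)) * (2 * a ^ 2) ≤ r * (2 * a ^ 2) := by
      have h7 : a ^ 2 ≤ t ^ 2 := Nat.pow_le_pow_left hat 2
      calc (4 * (t + 1)) * (2 * a ^ 2) = 8 * a ^ 2 * (t + 1) := by ring
        _ ≤ 8 * t ^ 2 * (t + 1) := Nat.mul_le_mul_right _ (Nat.mul_le_mul_left _ h7)
        _ ≤ r * (2 * a ^ 2) := h4.trans (h5.trans h)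
    have h7 : 4 * (t + 1) ≤ r := Nat.le_of_mul_le_mul_right h6 (by positivity)
    calc Q ^ 4 ≤ (3 ^ (t + 1)) ^ 4 := Nat.pow_le_pow_left h2.le 4
      _ = 3 ^ (4 * (t + 1)) := by rw [← pow_mul]; congr 1; ring
      _ ≤ 3 ^ r := Nat.pow_le_pow_right (by norm_num) h7

theorem n4 : N4Stmt := by
  intro p a b r hp hp2 ha hb h
  have hp3 : 3 ≤ p := by
    have := hp.two_le
    omega
  obtain ⟨c, rfl⟩ : ∃ c, b = c + 1 := ⟨b - 1, by omega⟩
  have hc : 1 ≤ c := by omega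
  set q := p ^ a with hq
  have hqa : 3 ^ a ≤ q := Nat.pow_le_pow_left hp3 a
  have hq3 : 3 ≤ q := by
    calc 3 = 3 ^ 1 := by norm_num
      _ ≤ 3 ^ a := Nat.pow_le_pow_right (by norm_num) ha
      _ ≤ q := hqa
  have e1 : p ^ (2 * a * (c + 1)) = (q ^ c) ^ 2 * q ^ 2 := by
    rw [hq, ← pow_mul, ← pow_mul, ← pow_mul, ← pow_add]
    congr 1
    ring
  rw [e1] at h ⊢
  have hQ : q ≤ q ^ c := by
    calc q = q ^ 1 := (pow_one q).symm
      _ ≤ q ^ c := Nat.pow_le_pow_right (by omega) hc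
  have h1 : (q ^ c) ^ 2 ≤ r * (2 * a ^ 2) := by
    by_contra hcon
    push Not at hcon
    obtain ⟨w, hw⟩ : ∃ w, q = w + 1 := ⟨q - 1, by omega⟩
    have hw2 : 2 ≤ w := by omega
    have e2 : q - 1 = w := by omega
    rw [e2] at h
    have h3 : (r * (2 * a ^ 2) + 1) * w ^ 2 ≤ (q ^ c) ^ 2 * w ^ 2 :=
      Nat.mul_le_mul_right _ hcon
    have h4 : (q ^ c) ^ 2 * q ^ 2 = (q ^ c) ^ 2 * w ^ 2 + (q ^ c) ^ 2 * (2 * w + 1) := by
      rw [hw]; ring
    have h5 : 1 ≤ (q ^ c) ^ 2 := Nat.one_le_pow _ _ (by positivity)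
    have h6 : r * (2 * a ^ 2 * w ^ 2) + w ^ 2 ≤ (q ^ c) ^ 2 * w ^ 2 := by
      calc r * (2 * a ^ 2 * w ^ 2) + w ^ 2 = (r * (2 * a ^ 2) + 1) * w ^ 2 := by ring
        _ ≤ _ := h3
    nlinarith
  have h2 := n4_core (q ^ c) a r ha (hqa.trans hQ) h1
  refine le_trans ?_ h2
  calc (q ^ c) ^ 2 * q ^ 2 ≤ (q ^ c) ^ 2 * (q ^ c) ^ 2 :=
        Nat.mul_le_mul_left _ (Nat.pow_le_pow_left hQ 2)
    _ = (q ^ c) ^ 4 := by ring

end Pool.Agent.Helper98.AG
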